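import Pool.Agent.R783.T4.Main

/-!
# The T4-hull iteration for triangular matrices need not terminate

Points `(x, y, z)` stand for the upper triangular matrices with rows `(x, z)` and `(0, y)`.
Definitions (`Pool.Agent.R783.T4.Defs` and `Pool.Agent.R783.T4.Main`): `RankOneDir`,
`RankOneConvex`, `IsT4`, `stepIn`, `iterIn`, `convRCmax`.
-/

set_option autoImplicit false

namespace Pool.Agent.Results.MP_9768d1_an.NoStop

open Pool.Agent.R783.T4

/-- There is a set `K` of six upper triangular matrices such that for every `N` the union of
`K^(0), ..., K^(N)` differs from the union of all `K^(i)`. -/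
theorem result : ∃ K : Finset V, K.card = 6 ∧ ∀ N : ℕ,
    (⋃ i ∈ Set.Iic N, iterIn convRCmax (K : Set V) i) ≠ ⋃ i, iterIn convRCmax (K : Set V) i :=
  no_stop

end Pool.Agent.Results.MP_9768d1_an.NoStop
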